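import Pool.Agent.Helper35.KD.Den
import Pool.Agent.Helper51.KD.Fin
import Pool.Agent.Helper88.KD.Exc
import Pool.Agent.Helper33.KD.Exc

/-!
# Project KD: Kershner's lower bound `θ(disk) ≥ 2π/√27`
-/

open MeasureTheory Set Filter Metric Helper97.CB

namespace Pool.Agent.Helper35.KD

theorem hFin : StFin := by
  intro S R hR hS
  exact Helper51.KD.fin_main
    (fun S g x hx hgen hxS => Pool.Agent.Helper88.KD.exists_delaunay g hx hgen hxS)
    (fun S R hS x hx => Pool.Agent.Helper33.KD.hul S R hS x hx) S R (by linarith) hS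

/-- Kershner (1939): every covering of the plane by unit disks has density at least `2π/√27`. -/
theorem kershner (φ : ℕ → (ℂ ≃ᵢ ℂ)) (hφ : ⋃ i, φ i '' closedBall 0 1 = univ) :
    ENNReal.ofReal (2 * Real.pi / √27) ≤ dens (closedBall 0 1) φ :=
  hDEN hFin φ hφ

/-- Kershner (1939): `2π/√27 ≤ θ(closed unit disk)`. -/
theorem theta_disk_ge :
    ENNReal.ofReal (2 * Real.pi / √27) ≤ theta (closedBall (0 : ℂ) 1) :=
  theta_ge hFin

theorem isBody_disk : IsBody (closedBall (0 : ℂ) 1) :=
  ⟨convex_closedBall 0 1, isCompact_closedBall 0 1, by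
    rw [interior_closedBall _ one_ne_zero]
    exact nonempty_ball.2 one_pos⟩

/-- If every planar convex body has covering density at most `2π/√27`, then `2π/√27` is the
greatest covering density of a planar convex body (attained by the disk). -/
theorem isGreatest_of (h : ∀ K : Set ℂ, IsBody K → theta K ≤ ENNReal.ofReal (2 * Real.pi / √27)) :
    IsGreatest {d | ∃ K : Set ℂ, IsBody K ∧ d = theta K} (ENNReal.ofReal (2 * Real.pi / √27)) :=
  ⟨⟨closedBall 0 1, isBody_disk, le_antisymm theta_disk_ge (h _ isBody_disk)⟩, by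
    rintro d ⟨K, hK, rfl⟩
    exact h K hK⟩

end Pool.Agent.Helper35.KD
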