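import Mathlib
import Pool.Agent.Helper97.CB.Defs

/-!
# Project KD, module DEN: from the finite statement FIN to the density of coverings by unit disks
-/

open MeasureTheory Set Filter Metric Helper97.CB

namespace Pool.Agent.Helper35.KD

/-- FIN: a finite set of centres whose unit disks cover the disk of radius `R` has at least
`π (R - 3)² / (3 √3 / 2)` points. -/
def StFin : Prop :=
  ∀ (S : Finset ℂ) (R : ℝ), 4 ≤ R → (∀ y : ℂ, ‖y‖ ≤ R → ∃ c ∈ S, ‖y - c‖ ≤ 1) →
    Real.pi * (R - 3) ^ 2 ≤ (3 * √3 / 2) * S.card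

theorem img_ball (e : ℂ ≃ᵢ ℂ) : e '' closedBall 0 1 = closedBall (e 0) 1 :=
  e.image_closedBall 0 1

theorem vol_ball (c : ℂ) : volume (closedBall c 1) = ENNReal.ofReal Real.pi := by
  rw [Complex.volume_closedBall]
  simp [ENNReal.ofReal, Real.toNNReal_of_nonneg Real.pi_pos.le]
  rfl

theorem exists_finset (hF : StFin) (φ : ℕ → (ℂ ≃ᵢ ℂ))
    (hφ : ⋃ i, φ i '' closedBall 0 1 = univ) (r : ℝ) (hr : 6 ≤ r) :
    ∃ F : Finset ℕ, (∀ i ∈ F, ‖φ i 0‖ ≤ r - 1) ∧
      Real.pi * (r - 5) ^ 2 / (3 * √3 / 2) ≤ (F.card : ℝ) := by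
  classical
  by_cases hfin : {i : ℕ | ‖φ i 0‖ ≤ r - 1}.Finite
  · refine ⟨hfin.toFinset, by simp, ?_⟩
    have h3 : (0 : ℝ) < 3 * √3 / 2 := by positivity
    rw [div_le_iff₀ h3]
    have h1 := hF (hfin.toFinset.image (fun i => φ i 0)) (r - 2) (by linarith) (by
      intro y hy
      have hy' : y ∈ ⋃ i, φ i '' closedBall 0 1 := by rw [hφ]; trivial
      obtain ⟨i, hi⟩ := mem_iUnion.1 hy'
      rw [img_ball, mem_closedBall, dist_eq_norm] at hi
      refine ⟨φ i 0, ?_, hi⟩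
      simp only [Finset.mem_image, Finite.mem_toFinset, Set.mem_ofPred_eq]
      refine ⟨i, ?_, rfl⟩
      have : ‖φ i 0‖ ≤ ‖y‖ + ‖y - φ i 0‖ := by
        have := norm_sub_le y (y - φ i 0)
        simpa using this
      linarith)
    have h2 : ((hfin.toFinset.image (fun i => φ i 0)).card : ℝ) ≤ hfin.toFinset.card := by
      exact_mod_cast Finset.card_image_le
    have h4 : Real.pi * (r - 5) ^ 2 = Real.pi * (r - 2 - 3) ^ 2 := by ring
    rw [h4]
    calc Real.pi * (r - 2 - 3) ^ 2 ≤ _ := h1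
      _ ≤ _ := by
        rw [mul_comm]
        exact mul_le_mul_of_nonneg_right h2 h3.le
  · obtain ⟨n, hn⟩ := exists_nat_ge (Real.pi * (r - 5) ^ 2 / (3 * √3 / 2))
    obtain ⟨F, hF1, hF2⟩ := Set.Infinite.exists_subset_card_eq hfin n
    refine ⟨F, fun i hi => hF1 hi, ?_⟩
    rw [hF2]; exact hn

theorem quot_ge (hF : StFin) (φ : ℕ → (ℂ ≃ᵢ ℂ))
    (hφ : ⋃ i, φ i '' closedBall 0 1 = univ) (r : ℝ) (hr : 6 ≤ r) :
    ENNReal.ofReal ((r - 5) ^ 2 / r ^ 2 * (2 * Real.pi / √27)) ≤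
      (∑' i, volume (φ i '' closedBall 0 1 ∩ closedBall (0 : ℂ) r)) /
        ENNReal.ofReal (Real.pi * r ^ 2) := by
  obtain ⟨F, hF1, hF2⟩ := exists_finset hF φ hφ r hr
  have hr0 : 0 < r := by linarith
  have hpos : 0 < Real.pi * r ^ 2 := by have := Real.pi_pos; positivity
  rw [ENNReal.le_div_iff_mul_le (Or.inl (by simpa using hpos)) (Or.inl ENNReal.ofReal_ne_top),
    ← ENNReal.ofReal_mul (by positivity)]
  have h27 : √(27 : ℝ) = 3 * √3 := by
    rw [show (27 : ℝ) = 3 ^ 2 * 3 by norm_num, Real.sqrt_mul (by norm_num),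
      Real.sqrt_sq (by norm_num)]
  have e1 : (r - 5) ^ 2 / r ^ 2 * (2 * Real.pi / √27) * (Real.pi * r ^ 2) =
      (Real.pi * (r - 5) ^ 2 / (3 * √3 / 2)) * Real.pi := by
    rw [h27]
    have : √(3 : ℝ) ≠ 0 := by positivity
    field_simp
  rw [e1]
  calc ENNReal.ofReal ((Real.pi * (r - 5) ^ 2 / (3 * √3 / 2)) * Real.pi)
      ≤ ENNReal.ofReal ((F.card : ℝ) * Real.pi) :=
        ENNReal.ofReal_le_ofReal (mul_le_mul_of_nonneg_right hF2 Real.pi_pos.le)
    _ = ∑ i ∈ F, ENNReal.ofReal Real.pi := by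
        rw [Finset.sum_const, nsmul_eq_mul, ENNReal.ofReal_mul (by positivity),
          ENNReal.ofReal_natCast]
    _ = ∑ i ∈ F, volume (φ i '' closedBall 0 1 ∩ closedBall (0 : ℂ) r) := by
        refine Finset.sum_congr rfl fun i hi => ?_
        have hsub : closedBall (φ i 0) 1 ⊆ closedBall (0 : ℂ) r := by
          intro y hy
          have h1 := hF1 i hi
          rw [mem_closedBall, dist_eq_norm] at hy ⊢
          have : ‖y‖ ≤ ‖y - φ i 0‖ + ‖φ i 0‖ := by
            have := norm_add_le (y - φ i 0) (φ i 0)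
            simpa using this
          simp only [sub_zero]
          linarith
        rw [img_ball, inter_eq_self_of_subset_left hsub, vol_ball]
    _ ≤ ∑' i, volume (φ i '' closedBall 0 1 ∩ closedBall (0 : ℂ) r) :=
        ENNReal.sum_le_tsum F

theorem tendsto_quot : Tendsto (fun r : ℝ => (r - 5) ^ 2 / r ^ 2 * (2 * Real.pi / √27)) atTop
    (nhds (2 * Real.pi / √27)) := by
  have h1 : Tendsto (fun r : ℝ => (1 - 5 / r) ^ 2) atTop (nhds ((1 - 0) ^ 2)) := by
    refine (tendsto_const_nhds.sub ?_).pow 2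
    exact tendsto_const_nhds.div_atTop tendsto_id
  have h2 : Tendsto (fun r : ℝ => (r - 5) ^ 2 / r ^ 2) atTop (nhds 1) := by
    have : (1 : ℝ) = (1 - 0) ^ 2 := by norm_num
    rw [this]
    refine h1.congr' ?_
    filter_upwards [eventually_gt_atTop 0] with r hr
    have : r ≠ 0 := hr.ne'
    field_simp
  have := h2.mul_const (2 * Real.pi / √27)
  simpa using this

/-- DEN: the finite statement implies Kershner's lower bound for coverings by unit disks. -/
theorem hDEN (hF : StFin) (φ : ℕ → (ℂ ≃ᵢ ℂ)) (hφ : ⋃ i, φ i '' closedBall 0 1 = univ) :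
    ENNReal.ofReal (2 * Real.pi / √27) ≤ dens (closedBall 0 1) φ := by
  unfold dens
  have ht : Tendsto (fun r : ℝ => ENNReal.ofReal ((r - 5) ^ 2 / r ^ 2 * (2 * Real.pi / √27)))
      atTop (nhds (ENNReal.ofReal (2 * Real.pi / √27))) :=
    (ENNReal.continuous_ofReal.tendsto _).comp tendsto_quot
  rw [← ht.liminf_eq]
  refine liminf_le_liminf ?_
  filter_upwards [eventually_ge_atTop 6] with r hr
  exact quot_ge hF φ hφ r hr

/-- `θ(disk) ≥ 2π/√27` from the finite statement. -/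
theorem theta_ge (hF : StFin) :
    ENNReal.ofReal (2 * Real.pi / √27) ≤ theta (closedBall (0 : ℂ) 1) := by
  unfold theta
  exact le_iInf₂ fun φ hφ => hDEN hF φ hφ

end Pool.Agent.Helper35.KD
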